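import Pool.Agent.helper17.EXT.SpecJ
import Pool.Agent.helper10.EXT.B0A

/-! Row ftj:JMQ (MP_561ff4_al): matrices of two letters and words over `ZMod 2`. -/

set_option autoImplicit false

open Finset

namespace Pool.Agent.EXT

open Pool.Agent.EXC

theorem JMQ_c1 : B0A_ok1 ![0, 0, 1, 1, 1, 0] (1 + Matrix.single 1 4 1) := by decide +kernel

theorem JMQ_c2 : B0A_ok2 ![0, 0, 0, 1, 1, 0] (pv ![0, 0, 0, 1, 1, 0])
    (1 + Matrix.single 1 3 1 + Matrix.single 2 4 1) := by decide +kernel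

theorem JMQ : JMQ_stmt := by
  refine ⟨fun K _ φ g => ⟨B0A_m1 φ g _ _ JMQ_c1, B0A_m2 φ g _ _ JMQ_c2⟩, ?_, ?_, ?_, ?_, ?_, ?_⟩
  · decide +kernel
  · decide +kernel
  · decide +kernel
  · decide +kernel
  · decide +kernel
  · decide +kernel

end Pool.Agent.EXT
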